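import Mathlib
import Pool.Agent.N638.SC.Ring

/-!
# Every finitely generated commutative ring has a d-Sigma_2 Scott sentence

The definitions (`Fml`: formulas of `L_{ω₁ω}`; `IsSigma`, `IsPi`: the classes `Σ_m`, `Π_m`;
`HasDSigma2Scott`) are in the starting file `Pool/Agent/TH750/Scott.lean`. From Mathlib:
`FirstOrder.Language.ring`, the language of rings `(0, 1, +, -, ·)` with unary minus, and
`FirstOrder.Ring.CompatibleRing A`, which says that `A` carries a structure for this language whose
symbols are interpreted by the ring operations of `A`.

Proof. Let the tuple `a` generate `A` and let `x` be a tuple of `A` which satisfies all universal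
formulas true of `a`. By Hilbert's basis theorem the ideal of the polynomials vanishing at `(x, a)`
is finitely generated. Since these finitely many equations in `(x, z)` have the solution `z = a`, the
equations in `(a, z)` have a solution `z = w` in `A`. So there is an endomorphism of `A` which maps
`x` to `a` and `a` to `w`. It is surjective, hence injective, as `A` is noetherian; so `x` generates
`A`. Hence the orbit of `a` is defined by universal formulas, which gives the Scott sentence by the
criterion of the starting file.
-/

set_option autoImplicit false

namespace Pool.Agent.Results.MP_93e0ce_lc.CommutativeRings

open FirstOrder FirstOrder.Language FirstOrder.Ring Pool.Agent.TH750.SC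

/-- Every commutative ring which is finitely generated as a ring (in particular every finitely
generated integral domain) has a d-`Σ_2` Scott sentence. -/
theorem result (A : Type) [CommRing A] [CompatibleRing A]
    (hA : ∃ s : Set A, s.Finite ∧ Subring.closure s = ⊤) :
    HasDSigma2Scott Language.ring A :=
  Pool.Agent.N638.SC.main hA

end Pool.Agent.Results.MP_93e0ce_lc.CommutativeRings
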